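import Mathlib

/-! MP_df7fe8_co: a lattice that is locally chain-bounded (even with all intervals finite) but has
no strictly monotone map into the integers. -/

namespace Pool.Agent.Results.MP_df7fe8_co.NoMonotoneMap

universe u

/-- Every interval `[x,y]` has a finite bound on the number of elements of its chains. -/
def LocallyChainBounded (P : Type u) [PartialOrder P] : Prop :=
  ∀ x y : P, x ≤ y → ∃ n : ℕ, ∀ C : Set P, C ⊆ Set.Icc x y → IsChain (· ≤ ·) C → C.encard ≤ n

/-- There is a strictly monotone map to the integers. -/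
def HasStrictMonoToInt (P : Type u) [PartialOrder P] : Prop := ∃ f : P → ℤ, StrictMono f

section construction

/-- the index set of functions -/
abbrev G : Type := ℕ → ℕ

/-- the bound at a level -/
def bnd (l : Option ℕ) (g : G) : ℕ := match l with
  | none => 1
  | some i => g i

/-- elements: a level and a finitely supported function -/
@[ext] structure L : Type where
  lv : Option ℕ
  fn : G →₀ ℕ
  le_bnd : ∀ g, fn g ≤ bnd lv g

/-- the order relation -/
def Rel (a b : L) : Prop := match b.lv with
  | none => a.fn.support ⊆ b.fn.support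
  | some i => match a.lv with
    | none => False
    | some j => (i = j ∧ a.fn ≤ b.fn) ∨ (i < j ∧ a.fn = 0)

theorem lv_cases (a : L) : a.lv = none ∨ ∃ i, a.lv = some i := by
  cases h : a.lv with
  | none => exact Or.inl rfl
  | some i => exact Or.inr ⟨i, rfl⟩

theorem rel_none {a b : L} (hb : b.lv = none) : Rel a b ↔ a.fn.support ⊆ b.fn.support := by
  unfold Rel
  rw [hb]

theorem rel_some_none {a b : L} {i : ℕ} (hb : b.lv = some i) (ha : a.lv = none) :
    ¬ Rel a b := by
  unfold Rel
  rw [hb, ha]
  exact id

theorem rel_some_some {a b : L} {i j : ℕ} (hb : b.lv = some i) (ha : a.lv = some j) :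
    Rel a b ↔ (i = j ∧ a.fn ≤ b.fn) ∨ (i < j ∧ a.fn = 0) := by
  unfold Rel
  rw [hb, ha]

theorem le_of_supp {a b : L} (ha : a.lv = none) (h : a.fn.support ⊆ b.fn.support) :
    a.fn ≤ b.fn := by
  intro g
  by_cases hg : a.fn g = 0
  · rw [hg]; exact Nat.zero_le _
  · have h1 := h (Finsupp.mem_support_iff.2 hg)
    rw [Finsupp.mem_support_iff] at h1
    have h2 := a.le_bnd g
    rw [ha] at h2
    simp only [bnd] at h2
    omega

theorem supp_mono {a b : G →₀ ℕ} (h : a ≤ b) : a.support ⊆ b.support := by
  intro g hg
  rw [Finsupp.mem_support_iff] at hg ⊢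
  have := h g
  omega

theorem rel_supp {a b : L} (h : Rel a b) : a.fn.support ⊆ b.fn.support := by
  rcases lv_cases b with hb | ⟨i, hb⟩
  · exact (rel_none hb).1 h
  · rcases lv_cases a with ha | ⟨j, ha⟩
    · exact absurd h (rel_some_none hb ha)
    · rcases (rel_some_some hb ha).1 h with ⟨_, h1⟩ | ⟨_, h1⟩
      · exact supp_mono h1
      · rw [h1]; simp

instance : PartialOrder L where
  le := Rel
  le_refl a := by
    rcases lv_cases a with ha | ⟨i, ha⟩
    · exact (rel_none ha).2 (Finset.Subset.refl _)
    · exact (rel_some_some ha ha).2 (Or.inl ⟨rfl, le_rfl⟩)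
  le_trans a b c hab hbc := by
    rcases lv_cases c with hc | ⟨k, hc⟩
    · exact (rel_none hc).2 ((rel_supp hab).trans ((rel_none hc).1 hbc))
    · rcases lv_cases b with hb | ⟨j, hb⟩
      · exact absurd hbc (rel_some_none hc hb)
      · rcases lv_cases a with ha | ⟨i, ha⟩
        · exact absurd hab (rel_some_none hb ha)
        · rw [rel_some_some hc ha]
          rcases (rel_some_some hc hb).1 hbc with ⟨h1, h2⟩ | ⟨h1, h2⟩ <;>
            rcases (rel_some_some hb ha).1 hab with ⟨h3, h4⟩ | ⟨h3, h4⟩
          · exact Or.inl ⟨h1.trans h3, h4.trans h2⟩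
          · exact Or.inr ⟨h1 ▸ h3, h4⟩
          · exact Or.inr ⟨h3 ▸ h1, le_antisymm (h2 ▸ h4) zero_le⟩
          · exact Or.inr ⟨h1.trans h3, h4⟩
  le_antisymm a b hab hba := by
    rcases lv_cases a with ha | ⟨i, ha⟩
    · rcases lv_cases b with hb | ⟨j, hb⟩
      · have h1 : a.fn.support = b.fn.support :=
          Finset.Subset.antisymm (rel_supp hab) (rel_supp hba)
        have h2 : a.fn = b.fn :=
          le_antisymm (le_of_supp ha h1.le) (le_of_supp hb h1.ge)
        exact L.ext (ha.trans hb.symm) h2
      · exact absurd hab (rel_some_none hb ha)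
    · rcases lv_cases b with hb | ⟨j, hb⟩
      · exact absurd hba (rel_some_none ha hb)
      · rcases (rel_some_some hb ha).1 hab with ⟨h1, h2⟩ | ⟨h1, h2⟩ <;>
          rcases (rel_some_some ha hb).1 hba with ⟨h3, h4⟩ | ⟨h3, h4⟩
        · exact L.ext (by rw [ha, hb, h3]) (le_antisymm h2 h4)
        · omega
        · omega
        · omega

theorem le_def (a b : L) : a ≤ b ↔ Rel a b := Iff.rfl

/-- indicator function of a finset -/
noncomputable def ind (F : Finset G) : G →₀ ℕ := F.sum fun g => Finsupp.single g 1

open Classical in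
theorem ind_apply (F : Finset G) (g : G) : ind F g = if g ∈ F then 1 else 0 := by
  unfold ind
  rw [Finsupp.finsetSum_apply]
  simp [Finsupp.single_apply]

theorem ind_support (F : Finset G) : (ind F).support = F := by
  classical
  ext g
  rw [Finsupp.mem_support_iff, ind_apply]
  simp

/-- top-level element attached to a finset -/
noncomputable def topElt (F : Finset G) : L := ⟨none, ind F, fun g => by
  classical
  rw [ind_apply]
  simp only [bnd]
  split_ifs <;> omega⟩

theorem le_topElt (a : L) (F : Finset G) : a ≤ topElt F ↔ a.fn.support ⊆ F := by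
  rw [le_def, rel_none (by rfl)]
  change _ ⊆ (ind F).support ↔ _
  rw [ind_support]

open Classical in
theorem exists_lub (a b : L) : ∃ c, IsLUB {a, b} c := by
  -- reduce to upper bounds
  suffices H : ∃ c, a ≤ c ∧ b ≤ c ∧ ∀ z, a ≤ z → b ≤ z → c ≤ z by
    obtain ⟨c, h1, h2, h3⟩ := H
    refine ⟨c, ?_, ?_⟩
    · rintro x (rfl | rfl)
      · exact h1
      · exact h2
    · intro z hz
      exact h3 z (hz (Or.inl rfl)) (hz (Or.inr rfl))
  by_cases hab : a ≤ b
  · exact ⟨b, hab, le_rfl, fun z _ h => h⟩
  by_cases hba : b ≤ a
  · exact ⟨a, le_rfl, hba, fun z h _ => h⟩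
  by_cases hl : a.lv = b.lv
  · -- same level: pointwise maximum
    refine ⟨⟨a.lv, a.fn ⊔ b.fn, fun g => ?_⟩, ?_, ?_, ?_⟩
    · rw [Finsupp.sup_apply]
      exact max_le (a.le_bnd g) (hl ▸ b.le_bnd g)
    · rw [le_def]
      rcases lv_cases a with ha | ⟨i, ha⟩
      · exact (rel_none (by exact ha)).2 (supp_mono le_sup_left)
      · exact (rel_some_some (by exact ha) ha).2 (Or.inl ⟨rfl, le_sup_left⟩)
    · rw [le_def]
      rcases lv_cases a with ha | ⟨i, ha⟩
      · exact (rel_none (by exact ha)).2 (supp_mono le_sup_right)
      · exact (rel_some_some (by exact ha) (hl ▸ ha)).2 (Or.inl ⟨rfl, le_sup_right⟩)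
    · intro z hz1 hz2
      rw [le_def] at hz1 hz2 ⊢
      rcases lv_cases z with hz | ⟨k, hz⟩
      · rw [rel_none hz] at hz1 hz2 ⊢
        intro g hg
        rw [Finsupp.mem_support_iff, Finsupp.sup_apply] at hg
        by_cases h1 : a.fn g = 0
        · apply hz2
          rw [Finsupp.mem_support_iff]
          intro h2
          rw [h1, h2] at hg
          exact hg rfl
        · exact hz1 (Finsupp.mem_support_iff.2 h1)
      · rcases lv_cases a with ha | ⟨i, ha⟩
        · exact absurd hz1 (rel_some_none hz ha)
        · refine (rel_some_some hz (by exact ha)).2 ?_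
          rcases (rel_some_some hz ha).1 hz1 with ⟨h1, h2⟩ | ⟨h1, h2⟩ <;>
            rcases (rel_some_some hz (hl ▸ ha)).1 hz2 with ⟨h3, h4⟩ | ⟨h3, h4⟩
          · exact Or.inl ⟨h1, sup_le h2 h4⟩
          · omega
          · omega
          · refine Or.inr ⟨h1, ?_⟩
            change a.fn ⊔ b.fn = 0
            rw [h2, h4, sup_idem]
  · -- different levels, incomparable: the join is at the top level
    refine ⟨topElt (a.fn.support ∪ b.fn.support), ?_, ?_, ?_⟩
    · rw [le_topElt]
      exact Finset.subset_union_left
    · rw [le_topElt]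
      exact Finset.subset_union_right
    · intro z hz1 hz2
      have hz : z.lv = none := by
        rcases lv_cases z with hz | ⟨k, hz⟩
        · exact hz
        · exfalso
          rw [le_def] at hz1 hz2
          rcases lv_cases a with ha | ⟨i, ha⟩
          · exact absurd hz1 (rel_some_none hz ha)
          · rcases lv_cases b with hb | ⟨j, hb⟩
            · exact absurd hz2 (rel_some_none hz hb)
            · rcases (rel_some_some hz ha).1 hz1 with ⟨h1, h2⟩ | ⟨h1, h2⟩ <;>
                rcases (rel_some_some hz hb).1 hz2 with ⟨h3, h4⟩ | ⟨h3, h4⟩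
              · apply hl
                rw [ha, hb, ← h1, ← h3]
              · -- b has larger index and is zero, so b ≤ a
                apply hba
                rw [le_def, rel_some_some ha hb]
                exact Or.inr ⟨h1 ▸ h3, h4⟩
              · apply hab
                rw [le_def, rel_some_some hb ha]
                exact Or.inr ⟨h3 ▸ h1, h2⟩
              · rcases lt_trichotomy i j with h | h | h
                · apply hba
                  rw [le_def, rel_some_some ha hb]
                  exact Or.inr ⟨h, h4⟩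
                · apply hl
                  rw [ha, hb, h]
                · apply hab
                  rw [le_def, rel_some_some hb ha]
                  exact Or.inr ⟨h, h2⟩
      rw [le_def] at hz1 hz2 ⊢
      rw [rel_none hz] at hz1 hz2 ⊢
      change (ind _).support ⊆ _
      rw [ind_support]
      exact Finset.union_subset hz1 hz2

open Classical in
theorem exists_glb (a b : L) : ∃ c, IsGLB {a, b} c := by
  suffices H : ∀ a b : L, (b.lv = none ∨ (∃ i j, a.lv = some j ∧ b.lv = some i ∧ i ≤ j)) →
      ∃ c, c ≤ a ∧ c ≤ b ∧ ∀ z, z ≤ a → z ≤ b → z ≤ c by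
    have H' : ∃ c, c ≤ a ∧ c ≤ b ∧ ∀ z, z ≤ a → z ≤ b → z ≤ c := by
      rcases lv_cases b with hb | ⟨i, hb⟩
      · exact H a b (Or.inl hb)
      · rcases lv_cases a with ha | ⟨j, ha⟩
        · obtain ⟨c, h1, h2, h3⟩ := H b a (Or.inl ha)
          exact ⟨c, h2, h1, fun z hz1 hz2 => h3 z hz2 hz1⟩
        · rcases le_total i j with h | h
          · exact H a b (Or.inr ⟨i, j, ha, hb, h⟩)
          · obtain ⟨c, h1, h2, h3⟩ := H b a (Or.inr ⟨j, i, hb, ha, h⟩)
            exact ⟨c, h2, h1, fun z hz1 hz2 => h3 z hz2 hz1⟩
    obtain ⟨c, h1, h2, h3⟩ := H'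
    refine ⟨c, ?_, ?_⟩
    · rintro x (rfl | rfl)
      · exact h1
      · exact h2
    · intro z hz
      exact h3 z (hz (Or.inl rfl)) (hz (Or.inr rfl))
  rintro a b (hb | ⟨i, j, ha, hb, hij⟩)
  · -- restrict `a` to the support of `b`
    refine ⟨⟨a.lv, a.fn.filter (fun g => g ∈ b.fn.support), fun g => ?_⟩, ?_, ?_, ?_⟩
    · rw [Finsupp.filter_apply]
      split_ifs
      · exact a.le_bnd g
      · exact Nat.zero_le _
    · have hle : a.fn.filter (fun g => g ∈ b.fn.support) ≤ a.fn := by
        intro g
        rw [Finsupp.filter_apply]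
        split_ifs
        · exact le_rfl
        · exact Nat.zero_le _
      rw [le_def]
      rcases lv_cases a with ha | ⟨i, ha⟩
      · exact (rel_none ha).2 (supp_mono hle)
      · exact (rel_some_some ha (by exact ha)).2 (Or.inl ⟨rfl, hle⟩)
    · rw [le_def, rel_none hb]
      intro g hg
      rw [Finsupp.mem_support_iff, Finsupp.filter_apply] at hg
      by_contra h
      rw [if_neg h] at hg
      exact hg rfl
    · intro z hz1 hz2
      rw [le_def, rel_none hb] at hz2
      rw [le_def] at hz1 ⊢
      rcases lv_cases a with ha | ⟨i, ha⟩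
      · rw [rel_none ha] at hz1
        refine (rel_none (by exact ha)).2 ?_
        intro g hg
        rw [Finsupp.mem_support_iff, Finsupp.filter_apply, if_pos (hz2 hg)]
        exact Finsupp.mem_support_iff.1 (hz1 hg)
      · rcases lv_cases z with hz | ⟨k, hz⟩
        · exact absurd hz1 (rel_some_none ha hz)
        · refine (rel_some_some (by exact ha) hz).2 ?_
          rcases (rel_some_some ha hz).1 hz1 with ⟨h1, h2⟩ | ⟨h1, h2⟩
          · refine Or.inl ⟨h1, ?_⟩
            intro g
            change z.fn g ≤ a.fn.filter (fun g => g ∈ b.fn.support) g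
            rw [Finsupp.filter_apply]
            split_ifs with hg
            · exact h2 g
            · have : g ∉ z.fn.support := fun h => hg (hz2 h)
              rw [Finsupp.notMem_support_iff] at this
              rw [this]
          · exact Or.inr ⟨h1, h2⟩
  · rcases hij.eq_or_lt with rfl | hij
    · -- same level
      refine ⟨⟨some i, a.fn ⊓ b.fn, fun g => ?_⟩, ?_, ?_, ?_⟩
      · rw [Finsupp.inf_apply]
        exact (min_le_left _ _).trans (ha ▸ a.le_bnd g)
      · rw [le_def, rel_some_some ha (by rfl)]
        exact Or.inl ⟨rfl, inf_le_left⟩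
      · rw [le_def, rel_some_some hb (by rfl)]
        exact Or.inl ⟨rfl, inf_le_right⟩
      · intro z hz1 hz2
        rw [le_def] at hz1 hz2 ⊢
        rcases lv_cases z with hz | ⟨k, hz⟩
        · exact absurd hz1 (rel_some_none ha hz)
        · rw [rel_some_some (by rfl) hz]
          rcases (rel_some_some ha hz).1 hz1 with ⟨h1, h2⟩ | ⟨h1, h2⟩ <;>
            rcases (rel_some_some hb hz).1 hz2 with ⟨h3, h4⟩ | ⟨h3, h4⟩
          · exact Or.inl ⟨h1, le_inf h2 h4⟩
          · omega
          · omega
          · exact Or.inr ⟨h1, h2⟩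
    · -- different levels
      by_cases ha0 : a.fn = 0
      · refine ⟨a, le_rfl, ?_, fun z hz _ => hz⟩
        rw [le_def, rel_some_some hb ha]
        exact Or.inr ⟨hij, ha0⟩
      · refine ⟨⟨some j, 0, fun g => Nat.zero_le _⟩, ?_, ?_, ?_⟩
        · rw [le_def, rel_some_some ha (by rfl)]
          exact Or.inl ⟨rfl, zero_le⟩
        · rw [le_def, rel_some_some hb (by rfl)]
          exact Or.inr ⟨hij, rfl⟩
        · intro z hz1 hz2
          rw [le_def] at hz1 hz2 ⊢
          rcases lv_cases z with hz | ⟨k, hz⟩
          · exact absurd hz1 (rel_some_none ha hz)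
          · rw [rel_some_some (by rfl) hz]
            rcases (rel_some_some ha hz).1 hz1 with ⟨h1, h2⟩ | ⟨h1, h2⟩ <;>
              rcases (rel_some_some hb hz).1 hz2 with ⟨h3, h4⟩ | ⟨h3, h4⟩
            · omega
            · exact Or.inl ⟨h1, h4.le⟩
            · omega
            · exact Or.inr ⟨h1, h2⟩

/-- The lattice structure. -/
noncomputable instance : Lattice L where
  sup a b := (exists_lub a b).choose
  le_sup_left a b := (exists_lub a b).choose_spec.1 (Or.inl rfl)
  le_sup_right a b := (exists_lub a b).choose_spec.1 (Or.inr rfl)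
  sup_le a b c hac hbc := (exists_lub a b).choose_spec.2 (by
    rintro x (rfl | rfl)
    · exact hac
    · exact hbc)
  inf a b := (exists_glb a b).choose
  inf_le_left a b := (exists_glb a b).choose_spec.1 (Or.inl rfl)
  inf_le_right a b := (exists_glb a b).choose_spec.1 (Or.inr rfl)
  le_inf a b c hab hac := (exists_glb b c).choose_spec.2 (by
    rintro x (rfl | rfl)
    · exact hab
    · exact hac)

/-- level number -/
def num (l : Option ℕ) : ℕ := l.getD 0

theorem icc_finite (x y : L) : (Set.Icc x y).Finite := by
  classical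
  set N := num x.lv with hN
  set Ψ : G →₀ ℕ := y.fn.support.sum
    (fun g => Finsupp.single g (1 + ∑ j ∈ Finset.range (N + 1), g j)) with hΨ
  have hΨa : ∀ g ∈ y.fn.support, Ψ g = 1 + ∑ j ∈ Finset.range (N + 1), g j := by
    intro g hg
    rw [hΨ, Finsupp.finsetSum_apply]
    rw [Finset.sum_eq_single g]
    · rw [Finsupp.single_eq_same]
    · intro b _ hb
      exact Finsupp.single_eq_of_ne hb.symm
    · intro h
      exact absurd hg h
  have hfin : (((insert none (some '' Set.Iic N) : Set (Option ℕ)) ×ˢ
      (Set.Icc (0 : G →₀ ℕ) Ψ)) : Set (Option ℕ × (G →₀ ℕ))).Finite :=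
    (((Set.finite_Iic N).image _).insert none).prod (Set.finite_Icc _ _)
  refine Set.Finite.of_finite_image (f := fun z : L => (z.lv, z.fn)) (hfin.subset ?_) ?_
  · rintro _ ⟨z, ⟨hxz, hzy⟩, rfl⟩
    have hlv : z.lv = none ∨ ∃ j ≤ N, z.lv = some j := by
      rcases lv_cases z with hz | ⟨j, hz⟩
      · exact Or.inl hz
      · right
        refine ⟨j, ?_, hz⟩
        rcases lv_cases x with hx | ⟨i, hx⟩
        · exact absurd hxz (rel_some_none hz hx)
        · rw [hN, hx]
          change j ≤ i
          rcases (rel_some_some hz hx).1 hxz with ⟨h1, _⟩ | ⟨h1, _⟩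
          · omega
          · omega
    refine ⟨?_, zero_le, ?_⟩
    · rcases hlv with h | ⟨j, hj, h⟩
      · exact Or.inl h
      · exact Or.inr ⟨j, hj, h.symm⟩
    · intro g
      by_cases hg : z.fn g = 0
      · change z.fn g ≤ Ψ g
        rw [hg]; exact Nat.zero_le _
      · have hg' : g ∈ y.fn.support := rel_supp hzy (Finsupp.mem_support_iff.2 hg)
        change z.fn g ≤ Ψ g
        rw [hΨa g hg']
        have hb := z.le_bnd g
        rcases hlv with h | ⟨j, hj, h⟩
        · rw [h] at hb
          simp only [bnd] at hb
          omega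
        · rw [h] at hb
          simp only [bnd] at hb
          have h7 : g j ≤ ∑ j ∈ Finset.range (N + 1), g j :=
            Finset.single_le_sum (f := fun j => g j) (fun j _ => Nat.zero_le _)
              (Finset.mem_range.2 (Nat.lt_succ_of_le hj))
          omega
  · intro a _ b _ hab
    have h1 : a.lv = b.lv := congrArg Prod.fst hab
    have h2 : a.fn = b.fn := congrArg Prod.snd hab
    exact L.ext h1 h2

/-- the element `(i, k δ_g)` -/
noncomputable def elt (i k : ℕ) (g : G) (h : k ≤ g i) : L := ⟨some i, Finsupp.single g k, by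
  classical
  intro g'
  rw [Finsupp.single_apply]
  split_ifs with hgg
  · subst hgg
    exact h
  · exact Nat.zero_le _⟩

/-- the element `(i, 0)` -/
def pt (i : ℕ) : L := ⟨some i, 0, fun _ => Nat.zero_le _⟩

theorem no_map (f : L → ℤ) (hf : StrictMono f) : False := by
  set g : G := fun i => (i - f (pt i)).toNat with hg
  have h1 : ∀ i k, ∀ h : k ≤ g i, f (pt i) + k ≤ f (elt i k g h) := by
    intro i k
    induction k with
    | zero =>
      intro h
      have : elt i 0 g h = pt i := by
        apply L.ext
        · rfl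
        · change Finsupp.single g 0 = 0
          rw [Finsupp.single_zero]
      rw [this]
      simp
    | succ k ih =>
      intro h
      have h2 := ih (Nat.le_of_succ_le h)
      have h3 : elt i k g (Nat.le_of_succ_le h) < elt i (k + 1) g h := by
        refine lt_of_le_of_ne ?_ ?_
        · rw [le_def, rel_some_some (by rfl) (by rfl)]
          refine Or.inl ⟨rfl, ?_⟩
          change Finsupp.single g k ≤ Finsupp.single g (k + 1)
          exact Finsupp.single_mono (Nat.le_succ k)
        · intro heq
          have h4 : (Finsupp.single g k : G →₀ ℕ) g = Finsupp.single g (k + 1) g :=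
            DFunLike.congr_fun (congrArg L.fn heq) g
          rw [Finsupp.single_eq_same, Finsupp.single_eq_same] at h4
          omega
      have h4 := hf h3
      push_cast
      omega
  have h2 : ∀ i, f (elt i (g i) g le_rfl) < f (topElt {g}) := by
    intro i
    apply hf
    refine lt_of_le_of_ne ?_ ?_
    · rw [le_topElt]
      exact Finsupp.support_single_subset
    · intro heq
      have := congrArg L.lv heq
      exact absurd this (by
        change some i ≠ none
        simp)
  have h3 : ∀ i : ℕ, (i : ℤ) < f (topElt {g}) := by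
    intro i
    have h4 := h1 i (g i) le_rfl
    have h5 := h2 i
    have h6 : (i : ℤ) - f (pt i) ≤ (g i : ℤ) := by
      simp only [hg]
      exact Int.self_le_toNat _
    omega
  have h4 := h3 (f (topElt {g})).toNat
  have h5 := Int.self_le_toNat (f (topElt {g}))
  omega

end construction

/-- There is a locally chain-bounded lattice without a strictly monotone map to the integers. -/
theorem result : ∃ (M : Type) (_ : Lattice M), LocallyChainBounded M ∧ ¬ HasStrictMonoToInt M := by
  refine ⟨L, inferInstance, ?_, ?_⟩
  · intro x y _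
    refine ⟨(Set.Icc x y).ncard, fun C hC _ => ?_⟩
    rw [(icc_finite x y).cast_ncard_eq]
    exact Set.encard_le_encard hC
  · rintro ⟨f, hf⟩
    exact no_map f hf

end Pool.Agent.Results.MP_df7fe8_co.NoMonotoneMap
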